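import Mathlib

set_option autoImplicit false

namespace Pool.Agent.LibMP7cc4cd

variable {V : Type*}

/-- The vertex `v` lies in a triangle of `G`. -/
def InTriangle (G : SimpleGraph V) (v : V) : Prop :=
  ∃ a b : V, G.Adj v a ∧ G.Adj v b ∧ G.Adj a b

/-- `S` is a total dominating set of `G`: every vertex (of `S` or not) has a neighbour in `S`. -/
def IsTotalDominating (G : SimpleGraph V) (S : Finset V) : Prop :=
  ∀ v : V, ∃ u ∈ S, G.Adj v u

/-- The total domination number: the minimum size of a total dominating set. -/
noncomputable def totalDominationNumber (G : SimpleGraph V) : ℕ :=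
  sInf {n | ∃ S : Finset V, IsTotalDominating G S ∧ S.card = n}

/-- `M` is a set of pairwise disjoint edges of `G`. -/
def IsEdgeMatching (G : SimpleGraph V) (M : Finset (Sym2 V)) : Prop :=
  (∀ e ∈ M, e ∈ G.edgeSet) ∧ ∀ e ∈ M, ∀ f ∈ M, ∀ v : V, v ∈ e → v ∈ f → e = f

/-- The matching number: the maximum number of pairwise disjoint edges. -/
noncomputable def matchingNumber (G : SimpleGraph V) : ℕ :=
  sSup {n | ∃ M : Finset (Sym2 V), IsEdgeMatching G M ∧ M.card = n}

/-- The class `𝒢_k`: every connected component has at least four vertices and all but at most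
`k` vertices lie in a triangle. -/
def InClass (k : ℕ) (G : SimpleGraph V) : Prop :=
  (∀ c : G.ConnectedComponent, 4 ≤ c.supp.ncard) ∧ {v : V | ¬ InTriangle G v}.ncard ≤ k

end Pool.Agent.LibMP7cc4cd
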