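import Mathlib
import Pool.Agent.Lib_MP_7cc4cd_co.Defs

set_option autoImplicit false

namespace Pool.Agent.LibMP7cc4cd

/-- vertex type: `inl 0, inl 1` hubs, `inl 2 = x`, `inl 3 = y`, `inl 4 = z`,
`inr (s, i, j)`: vertex `j` of the `i`-th pendant triangle at hub `s`. -/
abbrev VV (N : ℕ) : Type := Fin 5 ⊕ (Fin 2 × Fin N × Fin 3)

/-- adjacency among the five special vertices -/
def sp (a b : Fin 5) : Bool :=
  (a.val, b.val) ∈ [(0, 1), (1, 0), (0, 2), (2, 0), (1, 2), (2, 1), (2, 3), (3, 2), (3, 4), (4, 3)]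

/-- adjacency relation -/
def adjR (N : ℕ) : VV N → VV N → Prop
  | Sum.inl a, Sum.inl b => sp a b = true
  | Sum.inl a, Sum.inr (s, _, j) => j = 0 ∧ a.val = s.val
  | Sum.inr (s, _, j), Sum.inl a => j = 0 ∧ a.val = s.val
  | Sum.inr (s, i, j), Sum.inr (s', i', j') => s = s' ∧ i = i' ∧ j ≠ j'

/-- the counterexample -/
def GG (N : ℕ) : SimpleGraph (VV N) where
  Adj := adjR N
  symm := ⟨by
    rintro (a | ⟨s, i, j⟩) (b | ⟨s', i', j'⟩) h
    · simp only [adjR] at h ⊢
      revert h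
      revert a b
      decide
    · exact h
    · exact h
    · exact ⟨h.1.symm, h.2.1.symm, h.2.2.symm⟩⟩
  loopless := ⟨by
    rintro (a | ⟨s, i, j⟩) h
    · simp only [adjR] at h
      revert h
      revert a
      decide
    · exact h.2.2 rfl⟩

theorem adj_ll {N : ℕ} {a b : Fin 5} : (GG N).Adj (Sum.inl a) (Sum.inl b) ↔ sp a b = true := Iff.rfl
theorem adj_lr {N : ℕ} {a : Fin 5} {s i j} : (GG N).Adj (Sum.inl a) (Sum.inr (s, i, j)) ↔ j = 0 ∧ a.val = s.val := Iff.rfl
theorem adj_rl {N : ℕ} {a : Fin 5} {s i j} : (GG N).Adj (Sum.inr (s, i, j)) (Sum.inl a) ↔ j = 0 ∧ a.val = s.val := Iff.rfl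
theorem adj_rr {N : ℕ} {s i j s' i' j'} : (GG N).Adj (Sum.inr (s, i, j)) (Sum.inr (s', i', j')) ↔ s = s' ∧ i = i' ∧ j ≠ j' := Iff.rfl

theorem connected (N : ℕ) : (GG N).Connected := by
  have h2 : ∀ a : Fin 5, (GG N).Reachable (Sum.inl a) (Sum.inl 2) := by
    have e02 : (GG N).Adj (Sum.inl 0) (Sum.inl 2) := adj_ll.mpr (by decide)
    have e12 : (GG N).Adj (Sum.inl 1) (Sum.inl 2) := adj_ll.mpr (by decide)
    have e32 : (GG N).Adj (Sum.inl 3) (Sum.inl 2) := adj_ll.mpr (by decide)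
    have e43 : (GG N).Adj (Sum.inl 4) (Sum.inl 3) := adj_ll.mpr (by decide)
    intro a
    fin_cases a
    · exact e02.reachable
    · exact e12.reachable
    · exact SimpleGraph.Reachable.refl _
    · exact e32.reachable
    · exact e43.reachable.trans e32.reachable
  have h3 : ∀ v : VV N, (GG N).Reachable v (Sum.inl 2) := by
    rintro (a | ⟨s, i, j⟩)
    · exact h2 a
    · have hub : (GG N).Reachable (Sum.inr (s, i, 0)) (Sum.inl 2) := by
        have : (GG N).Adj (Sum.inr (s, i, 0)) (Sum.inl ⟨s.val, by omega⟩) := adj_rl.mpr ⟨rfl, rfl⟩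
        exact this.reachable.trans (h2 _)
      by_cases hj : j = 0
      · subst hj; exact hub
      · have : (GG N).Adj (Sum.inr (s, i, j)) (Sum.inr (s, i, 0)) := adj_rr.mpr ⟨rfl, rfl, hj⟩
        exact this.reachable.trans hub
  have hne : Nonempty (VV N) := ⟨Sum.inl 0⟩
  exact ⟨fun u v => (h3 u).trans (h3 v).symm⟩

theorem notri (N : ℕ) : {v : VV N | ¬ InTriangle (GG N) v} = {Sum.inl 3, Sum.inl 4} := by
  have d1 : ∀ a b : Fin 5, sp 3 a = true → sp 3 b = true → sp a b = true → False := by decide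
  have d2 : ∀ a b : Fin 5, sp 4 a = true → sp 4 b = true → sp a b = true → False := by decide
  have d3 : ∀ a : Fin 5, a ≠ 3 → a ≠ 4 → a = 0 ∨ a = 1 ∨ a = 2 := by decide
  have d4 : ∀ j : Fin 3, ∃ a b : Fin 3, j ≠ a ∧ j ≠ b ∧ a ≠ b := by decide
  ext v
  simp only [Set.mem_ofPred_eq, Set.mem_insert_iff, Set.mem_singleton_iff]
  constructor
  · intro h
    by_contra hcon
    push Not at hcon
    apply h
    rcases v with a | ⟨s, i, j⟩
    · have : a = 0 ∨ a = 1 ∨ a = 2 := by
        have h3 : a ≠ 3 := fun h => hcon.1 (by rw [h])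
        have h4 : a ≠ 4 := fun h => hcon.2 (by rw [h])
        exact d3 a h3 h4
      rcases this with rfl | rfl | rfl
      · exact ⟨Sum.inl 1, Sum.inl 2, adj_ll.mpr (by decide), adj_ll.mpr (by decide), adj_ll.mpr (by decide)⟩
      · exact ⟨Sum.inl 0, Sum.inl 2, adj_ll.mpr (by decide), adj_ll.mpr (by decide), adj_ll.mpr (by decide)⟩
      · exact ⟨Sum.inl 0, Sum.inl 1, adj_ll.mpr (by decide), adj_ll.mpr (by decide), adj_ll.mpr (by decide)⟩
    · have : ∃ a b : Fin 3, j ≠ a ∧ j ≠ b ∧ a ≠ b := d4 j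
      obtain ⟨a, b, h1, h2, h3⟩ := this
      exact ⟨Sum.inr (s, i, a), Sum.inr (s, i, b), adj_rr.mpr ⟨rfl, rfl, h1⟩, adj_rr.mpr ⟨rfl, rfl, h2⟩,
        adj_rr.mpr ⟨rfl, rfl, h3⟩⟩
  · rintro (rfl | rfl) ⟨a, b, h1, h2, h3⟩
    · rcases a with a | ⟨s, i, j⟩
      · rcases b with b | ⟨s', i', j'⟩
        · exact d1 a b (adj_ll.mp h1) (adj_ll.mp h2) (adj_ll.mp h3)
        · have := (adj_lr.mp h2).2
          have := s'.isLt
          simp at *
          omega
      · have := (adj_lr.mp h1).2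
        have := s.isLt
        simp at *
        omega
    · rcases a with a | ⟨s, i, j⟩
      · rcases b with b | ⟨s', i', j'⟩
        · exact d2 a b (adj_ll.mp h1) (adj_ll.mp h2) (adj_ll.mp h3)
        · have := (adj_lr.mp h2).2
          have := s'.isLt
          simp at *
          omega
      · have := (adj_lr.mp h1).2
        have := s.isLt
        simp at *
        omega

theorem inClass (N : ℕ) : InClass 2 (GG N) := by
  constructor
  · intro c
    have hsupp : c.supp = Set.univ := by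
      rw [Set.eq_univ_iff_forall]
      intro v
      rw [SimpleGraph.ConnectedComponent.mem_supp_iff]
      obtain ⟨w, rfl⟩ := c.exists_rep
      exact SimpleGraph.ConnectedComponent.sound ((connected N).preconnected v w)
    rw [hsupp, Set.ncard_univ, Nat.card_eq_fintype_card]
    simp only [Fintype.card_sum, Fintype.card_fin, Fintype.card_prod]
    omega
  · rw [notri]
    exact Set.ncard_insert_le _ _ |>.trans (by rw [Set.ncard_singleton])

theorem hs_aux : ∀ s : Fin 2, (⟨s.val, by omega⟩ : Fin 5) ≠ 3 ∧ (⟨s.val, by omega⟩ : Fin 5) ≠ 2 ∧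
    (⟨s.val, by omega⟩ : Fin 5) ≠ 4 := by decide

theorem td_lower {N : ℕ} (hN : 1 ≤ N) (S : Finset (VV N)) (hS : IsTotalDominating (GG N) S) :
    2 * N + 4 ≤ S.card := by
  set i0 : Fin N := ⟨0, hN⟩
  have hT : ∀ (s : Fin 2) (i : Fin N), ∃ j : Fin 3, Sum.inr (s, i, j) ∈ S := by
    intro s i
    obtain ⟨u, hu, hadj⟩ := hS (Sum.inr (s, i, 1))
    rcases u with a | ⟨s', i', j'⟩
    · exact absurd (adj_rl.mp hadj).1 (by decide)
    · obtain ⟨rfl, rfl, h⟩ := adj_rr.mp hadj
      exact ⟨j', hu⟩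
  choose T hT using hT
  have hR : ∀ s : Fin 2, ∃ v ∈ S, v = Sum.inl ⟨s.val, by omega⟩ ∨ ∃ j, j ≠ T s i0 ∧ v = Sum.inr (s, i0, j) := by
    intro s
    obtain ⟨u, hu, hadj⟩ := hS (Sum.inr (s, i0, T s i0))
    refine ⟨u, hu, ?_⟩
    rcases u with a | ⟨s', i', j'⟩
    · left
      have := (adj_rl.mp hadj).2
      congr 1
      exact Fin.ext this
    · right
      obtain ⟨rfl, rfl, h⟩ := adj_rr.mp hadj
      exact ⟨j', h.symm, rfl⟩
  choose R hR1 hR2 using hR
  have e3 : ∀ a : Fin 5, sp 3 a = true → a = 2 ∨ a = 4 := by decide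
  have e4 : ∀ a : Fin 5, sp 4 a = true → a = 3 := by decide
  have hU : ∃ v ∈ S, v = Sum.inl 2 ∨ v = Sum.inl 4 := by
    obtain ⟨u, hu, hadj⟩ := hS (Sum.inl 3)
    refine ⟨u, hu, ?_⟩
    rcases u with a | ⟨s', i', j'⟩
    · rcases e3 a (adj_ll.mp hadj) with rfl | rfl
      · exact Or.inl rfl
      · exact Or.inr rfl
    · have := (adj_lr.mp hadj).2
      have h2 := s'.isLt
      simp at this
      omega
  obtain ⟨U, hU1, hU2⟩ := hU
  have hY : (Sum.inl 3 : VV N) ∈ S := by
    obtain ⟨u, hu, hadj⟩ := hS (Sum.inl 4)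
    rcases u with a | ⟨s', i', j'⟩
    · rw [e4 a (adj_ll.mp hadj)] at hu
      exact hu
    · have := (adj_lr.mp hadj).2
      have h2 := s'.isLt
      simp at this
      omega
  let g : Bool ⊕ (Fin 2 × Option (Fin N)) → VV N := fun w => match w with
    | Sum.inl false => Sum.inl 3
    | Sum.inl true => U
    | Sum.inr (s, none) => R s
    | Sum.inr (s, some i) => Sum.inr (s, i, T s i)
  have hcard : Fintype.card (Bool ⊕ (Fin 2 × Option (Fin N))) = 2 * N + 4 := by
    simp only [Fintype.card_sum, Fintype.card_bool, Fintype.card_prod, Fintype.card_fin, Fintype.card_option]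
    ring
  rw [← hcard, ← Finset.card_univ]
  apply Finset.card_le_card_of_injOn g
  · intro w _
    rcases w with (_ | _) | ⟨s, _ | i⟩
    · exact hY
    · exact hU1
    · exact hR1 s
    · exact hT s i
  · intro w _ w' _ h
    have hs := hs_aux
    rcases w with (_ | _) | ⟨s, _ | i⟩ <;> rcases w' with (_ | _) | ⟨s', _ | i'⟩
    · rfl
    · exfalso
      change (Sum.inl 3 : VV N) = U at h
      rcases hU2 with h2 | h2 <;> rw [h2] at h <;> exact absurd (Sum.inl.inj h) (by decide)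
    · exfalso
      change (Sum.inl 3 : VV N) = R s' at h
      rcases hR2 s' with h2 | ⟨j, _, h2⟩ <;> rw [h2] at h
      · exact (hs s').1 (Sum.inl.inj h).symm
      · cases h
    · exfalso; cases h
    · exfalso
      change U = (Sum.inl 3 : VV N) at h
      rcases hU2 with h2 | h2 <;> rw [h2] at h <;> exact absurd (Sum.inl.inj h) (by decide)
    · rfl
    · exfalso
      change U = R s' at h
      rcases hR2 s' with h2 | ⟨j, _, h2⟩ <;> rw [h2] at h <;> rcases hU2 with h3 | h3 <;> rw [h3] at h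
      · exact (hs s').2.1 (Sum.inl.inj h).symm
      · exact (hs s').2.2 (Sum.inl.inj h).symm
      · cases h
      · cases h
    · exfalso
      change U = (Sum.inr (s', i', T s' i') : VV N) at h
      rcases hU2 with h3 | h3 <;> rw [h3] at h <;> cases h
    · exfalso
      change R s = (Sum.inl 3 : VV N) at h
      rcases hR2 s with h2 | ⟨j, _, h2⟩ <;> rw [h2] at h
      · exact (hs s).1 (Sum.inl.inj h)
      · cases h
    · exfalso
      change R s = U at h
      rcases hR2 s with h2 | ⟨j, _, h2⟩ <;> rw [h2] at h <;> rcases hU2 with h3 | h3 <;> rw [h3] at h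
      · exact (hs s).2.1 (Sum.inl.inj h)
      · exact (hs s).2.2 (Sum.inl.inj h)
      · cases h
      · cases h
    · change R s = R s' at h
      rcases hR2 s with h2 | ⟨j, _, h2⟩ <;> rw [h2] at h <;> rcases hR2 s' with h3 | ⟨j', _, h3⟩ <;> rw [h3] at h
      · have h4 := congrArg Fin.val (Sum.inl.inj h)
        have h5 : s = s' := Fin.ext h4
        rw [h5]
      · cases h
      · cases h
      · have h4 := congrArg Prod.fst (Sum.inr.inj h)
        rw [show s = s' from h4]
    · exfalso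
      change R s = (Sum.inr (s', i', T s' i') : VV N) at h
      rcases hR2 s with h2 | ⟨j, hj, h2⟩ <;> rw [h2] at h
      · cases h
      · have h4 := Sum.inr.inj h
        have h5 : s = s' := congrArg Prod.fst h4
        have h6 : i0 = i' := congrArg (fun x => x.2.1) h4
        have h7 : j = T s' i' := congrArg (fun x => x.2.2) h4
        rw [← h5, ← h6] at h7
        exact hj h7
    · exfalso; cases h
    · exfalso
      change (Sum.inr (s, i, T s i) : VV N) = U at h
      rcases hU2 with h3 | h3 <;> rw [h3] at h <;> cases h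
    · exfalso
      change (Sum.inr (s, i, T s i) : VV N) = R s' at h
      rcases hR2 s' with h2 | ⟨j, hj, h2⟩ <;> rw [h2] at h
      · cases h
      · have h4 := Sum.inr.inj h
        have h5 : s = s' := congrArg Prod.fst h4
        have h6 : i = i0 := congrArg (fun x => x.2.1) h4
        have h7 : T s i = j := congrArg (fun x => x.2.2) h4
        rw [h5, h6] at h7
        exact hj h7.symm
    · change (Sum.inr (s, i, T s i) : VV N) = Sum.inr (s', i', T s' i') at h
      have h4 := Sum.inr.inj h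
      have h5 : s = s' := congrArg Prod.fst h4
      have h6 : i = i' := congrArg (fun x => x.2.1) h4
      rw [h5, h6]

/-- label of an edge of a matching -/
def Lab {N : ℕ} (e : Sym2 (VV N)) : Fin 3 ⊕ (Fin 2 × Fin N) → Prop
  | Sum.inl a => (Sum.inl ((![0, 1, 3] : Fin 3 → Fin 5) a) : VV N) ∈ e
  | Sum.inr (s, i) => ∃ j j' : Fin 3, j ≠ j' ∧ e = s(Sum.inr (s, i, j), Sum.inr (s, i, j'))

theorem exists_lab {N : ℕ} (e : Sym2 (VV N)) (he : e ∈ (GG N).edgeSet) : ∃ l, Lab e l := by
  induction e using Sym2.ind with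
  | _ u v =>
    rw [SimpleGraph.mem_edgeSet] at he
    have hub : ∀ s : Fin 2, ∃ l : Fin 3, (![0, 1, 3] : Fin 3 → Fin 5) l = ⟨s.val, by omega⟩ := by decide
    have d : ∀ a b : Fin 5, sp a b = true → ∃ l : Fin 3, (![0, 1, 3] : Fin 3 → Fin 5) l = a ∨ (![0, 1, 3] : Fin 3 → Fin 5) l = b := by decide
    rcases u with a | ⟨s, i, j⟩ <;> rcases v with b | ⟨s', i', j'⟩
    · obtain ⟨l, hl | hl⟩ := d a b (adj_ll.mp he)
      · exact ⟨Sum.inl l, by simp only [Lab, hl]; exact Sym2.mem_mk_left _ _⟩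
      · exact ⟨Sum.inl l, by simp only [Lab, hl]; exact Sym2.mem_mk_right _ _⟩
    · obtain ⟨l, hl⟩ := hub s'
      have h2 : a = ⟨s'.val, by omega⟩ := Fin.ext (adj_lr.mp he).2
      exact ⟨Sum.inl l, by simp only [Lab, hl, h2]; exact Sym2.mem_mk_left _ _⟩
    · obtain ⟨l, hl⟩ := hub s
      have h2 : b = ⟨s.val, by omega⟩ := Fin.ext (adj_rl.mp he).2
      exact ⟨Sum.inl l, by simp only [Lab, hl, h2]; exact Sym2.mem_mk_right _ _⟩
    · obtain ⟨rfl, rfl, h⟩ := adj_rr.mp he
      exact ⟨Sum.inr (s, i), j, j', h, rfl⟩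

theorem matching_upper {N : ℕ} (M : Finset (Sym2 (VV N))) (hM : IsEdgeMatching (GG N) M) :
    M.card ≤ 2 * N + 3 := by
  classical
  have h : ∀ e : Sym2 (VV N), ∃ l, e ∈ M → Lab e l := by
    intro e
    by_cases he : e ∈ M
    · obtain ⟨l, hl⟩ := exists_lab e (hM.1 e he)
      exact ⟨l, fun _ => hl⟩
    · exact ⟨Sum.inl 0, fun h => absurd h he⟩
  choose L hL using h
  have hcard : Fintype.card (Fin 3 ⊕ (Fin 2 × Fin N)) = 2 * N + 3 := by
    simp only [Fintype.card_sum, Fintype.card_prod, Fintype.card_fin]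
    ring
  rw [← hcard, ← Finset.card_univ]
  apply Finset.card_le_card_of_injOn L (fun _ _ => Finset.mem_univ _)
  intro e he f hf hef
  have h1 := hL e he
  have h2 := hL f hf
  have hef' : L e = L f := hef
  rw [← hef'] at h2
  rcases hl : L e with a | ⟨s, i⟩
  · rw [hl] at h1 h2
    exact hM.2 e he f hf _ h1 h2
  · rw [hl] at h1 h2
    obtain ⟨j, j', hjj, rfl⟩ := h1
    obtain ⟨k, k', hkk, rfl⟩ := h2
    have d : ∀ j j' k k' : Fin 3, j ≠ j' → k ≠ k' → j = k ∨ j = k' ∨ j' = k ∨ j' = k' := by decide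
    rcases d j j' k k' hjj hkk with rfl | rfl | rfl | rfl
    · exact hM.2 _ he _ hf (Sum.inr (s, i, j)) (Sym2.mem_mk_left _ _) (Sym2.mem_mk_left _ _)
    · exact hM.2 _ he _ hf (Sum.inr (s, i, j)) (Sym2.mem_mk_left _ _) (Sym2.mem_mk_right _ _)
    · exact hM.2 _ he _ hf (Sum.inr (s, i, j')) (Sym2.mem_mk_right _ _) (Sym2.mem_mk_left _ _)
    · exact hM.2 _ he _ hf (Sum.inr (s, i, j')) (Sym2.mem_mk_right _ _) (Sym2.mem_mk_right _ _)

theorem univ_td (N : ℕ) : IsTotalDominating (GG N) Finset.univ := by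
  intro v
  rcases v with a | ⟨s, i, j⟩
  · have d : ∀ a : Fin 5, ∃ b, sp a b = true := by decide
    obtain ⟨b, hb⟩ := d a
    exact ⟨Sum.inl b, Finset.mem_univ _, adj_ll.mpr hb⟩
  · have d : ∀ j : Fin 3, ∃ k, j ≠ k := by decide
    obtain ⟨k, hk⟩ := d j
    exact ⟨Sum.inr (s, i, k), Finset.mem_univ _, adj_rr.mpr ⟨rfl, rfl, hk⟩⟩

theorem gammat_lower {N : ℕ} (hN : 1 ≤ N) : 2 * N + 4 ≤ totalDominationNumber (GG N) := by
  unfold totalDominationNumber
  apply le_csInf
  · exact ⟨_, Finset.univ, univ_td N, rfl⟩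
  · rintro b ⟨S, hS, rfl⟩
    exact td_lower hN S hS

theorem alpha_upper (N : ℕ) : matchingNumber (GG N) ≤ 2 * N + 3 := by
  unfold matchingNumber
  apply csSup_le
  · exact ⟨0, ∅, ⟨by simp, by simp⟩, rfl⟩
  · rintro b ⟨M, hM, rfl⟩
    exact matching_upper M hM

end Pool.Agent.LibMP7cc4cd
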